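import Pool.Agent.Helper4.T7.StD

/-!
# Levels `7·5^n`, module Lif: lifting symbols modulo 5 to integral symbols

Adapted from Pool/Agent/Helper74/TK/M_Lif.lean.
-/

set_option autoImplicit false

namespace Pool.Agent.Helper9.T7

open Pool.Agent.Helper14.CV (Homog EqC act Tl)
open Pool.Agent.Helper4.T7
open Pool.Agent.Helper28.T7 (HTy SymH)

/-- the reduction modulo five -/
private def red (G : ℤ → ℤ → ℤ) : ℤ → ℤ → ZMod 5 := fun p q => ((G p q : ℤ) : ZMod 5)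

private theorem red_Sym {r s : ℕ} {G : ℤ → ℤ → ℤ} (h : SymH 5 r s G) : SymH 5 r s (red G) := by
  refine ⟨?_, ?_⟩
  · intro k p q hk hpq
    change ((G (k * p) (k * q) : ℤ) : ZMod 5) = ((G p q : ℤ) : ZMod 5)
    rw [h.1 k p q hk hpq]
  · intro a b c d hdet hb hc
    obtain ⟨e, he⟩ := h.2 a b c d hdet hb hc
    refine ⟨(e : ZMod 5), ?_⟩
    intro p q hpq
    have h1 := he p q hpq
    have h2 : G (a * p + b * q) (c * p + d * q) = G p q + e := h1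
    change ((G (a * p + b * q) (c * p + d * q) : ℤ) : ZMod 5) = ((G p q : ℤ) : ZMod 5) + e
    rw [h2, Int.cast_add]

private theorem red_Tl (l : ℕ) (m : ℤ) (G : ℤ → ℤ → ℤ) : Tl l m (red G) = red (Tl l m G) := by
  funext p q
  change red G (l * p) q + ∑ j ∈ Finset.range l, red G (p + m * j * q) (l * q)
    = ((G (l * p) q + ∑ j ∈ Finset.range l, G (p + m * j * q) (l * q) : ℤ) : ZMod 5)
  rw [Int.cast_add, Int.cast_sum]
  rfl

private theorem red_add (G H : ℤ → ℤ → ℤ) : red G + red H = red (G + H) := by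
  funext p q
  simp only [Pi.add_apply, red, Int.cast_add]

private theorem red_smul (k : ℤ) (G : ℤ → ℤ → ℤ) : k • red G = red (k • G) := by
  funext p q
  simp only [Pi.smul_apply, red]
  rw [zsmul_eq_mul, smul_eq_mul, Int.cast_mul]

private theorem red_Uo (m : ℤ) (G : ℤ → ℤ → ℤ) : UoQ m (red G) = red (UoQ m G) := by
  unfold UoQ
  simp only [red_Tl, red_smul, red_add]

private theorem red_Ao (m : ℤ) (G : ℤ → ℤ → ℤ) : AoQ m (red G) = red (AoQ m G) := by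
  unfold AoQ
  simp only [red_Tl, red_smul, red_add]

private theorem red_Bo (m : ℤ) (G : ℤ → ℤ → ℤ) : BoQ m (red G) = red (BoQ m G) := by
  unfold BoQ
  simp only [red_Tl, red_smul, red_add]

private theorem red_Vo (m : ℤ) (G : ℤ → ℤ → ℤ) : VoQ m (red G) = red (VoQ m G) := by
  unfold VoQ
  simp only [red_Ao, red_Bo, red_Tl, red_smul, red_add]

private theorem red_Oo (c : ℕ) (m : ℤ) (G : ℤ → ℤ → ℤ) : OoQ c m (red G) = red (OoQ c m G) := by
  unfold OoQ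
  split_ifs
  · rfl
  all_goals simp only [red_Tl, red_smul, red_add]

private theorem red_iter (U : (ℤ → ℤ → ZMod 5) → (ℤ → ℤ → ZMod 5))
    (V : (ℤ → ℤ → ℤ) → (ℤ → ℤ → ℤ)) (h : ∀ G, U (red G) = red (V G)) (i : ℕ) (G : ℤ → ℤ → ℤ) :
    U^[i] (red G) = red (V^[i] G) := by
  induction i generalizing G with
  | zero => rfl
  | succ i ih =>
    rw [Function.iterate_succ_apply, Function.iterate_succ_apply, h, ih]

private theorem red_ev (m : ℤ) (G : ℤ → ℤ → ℤ) (c i j : ℕ) :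
    evQ m (red G) c i j = ((evQ m G c i j : ℤ) : ZMod 5) := by
  unfold evQ
  rw [red_iter (VoQ m) (VoQ m) (red_Vo m), red_iter (UoQ m) (UoQ m) (red_Uo m),
    red_Oo, Int.cast_sub]
  rfl

private theorem red_pf {q q' : ℕ} (G : ℤ → ℤ → ℤ) (i : Fin 5) (x : ZMod q) (y : ZMod q') :
    pfQ (red G) i x y = ((pfQ G i x y : ℤ) : ZMod 5) := by
  unfold pfQ edgeQ
  rw [Int.cast_sub]
  rfl

private theorem sub_pf {q q' : ℕ} (G H : ℤ → ℤ → ZMod 5) (i : Fin 5) (x : ZMod q) (y : ZMod q') :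
    pfQ (G + -H) i x y = pfQ G i x y - pfQ H i x y := by
  unfold pfQ edgeQ
  simp only [Pi.add_apply, Pi.neg_apply]
  abel

/-! `evQ` depends only on the class up to constants -/

private theorem eqC_Tl {G H : ℤ → ℤ → ZMod 5} (l : ℕ) (hl : l ≠ 0) (m : ℤ) (h : EqC G H) :
    EqC (Tl l m G) (Tl l m H) := by
  obtain ⟨c, hc⟩ := h
  refine ⟨c + (l : ZMod 5) * c, fun p q hpq => ?_⟩
  have hl' : (l : ℤ) ≠ 0 := by exact_mod_cast hl
  simp only [Tl]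
  rw [hc (l * p) q (by
    rcases hpq with h0 | h0
    · exact Or.inl (mul_ne_zero hl' h0)
    · exact Or.inr h0)]
  have hs : ∑ j ∈ Finset.range l, G (p + m * j * q) (l * q) =
      ∑ j ∈ Finset.range l, (H (p + m * j * q) (l * q) + c) := by
    refine Finset.sum_congr rfl fun j _ => hc _ _ ?_
    by_cases hq : q = 0
    · left
      rcases hpq with h0 | h0
      · rw [hq, mul_zero, add_zero]; exact h0
      · exact absurd hq h0
    · right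
      exact mul_ne_zero hl' hq
  rw [hs, Finset.sum_add_distrib, Finset.sum_const, Finset.card_range, nsmul_eq_mul]
  ring

private theorem eqC_add {G H G' H' : ℤ → ℤ → ZMod 5} (h : EqC G H) (h' : EqC G' H') :
    EqC (G + G') (H + H') := by
  obtain ⟨c, hc⟩ := h
  obtain ⟨c', hc'⟩ := h'
  refine ⟨c + c', fun p q hpq => ?_⟩
  simp only [Pi.add_apply]
  rw [hc p q hpq, hc' p q hpq]
  ring

private theorem eqC_zsmul {G H : ℤ → ℤ → ZMod 5} (k : ℤ) (h : EqC G H) :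
    EqC (k • G) (k • H) := by
  obtain ⟨c, hc⟩ := h
  refine ⟨k • c, fun p q hpq => ?_⟩
  simp only [Pi.smul_apply]
  rw [hc p q hpq, smul_add]

private theorem eqC_Uo {G H : ℤ → ℤ → ZMod 5} (m : ℤ) (h : EqC G H) : EqC (UoQ m G) (UoQ m H) :=
  (eqC_add (eqC_add (eqC_add (eqC_add (eqC_add (eqC_add (eqC_add (eqC_zsmul 3 h) (eqC_zsmul 3
  (eqC_Tl 2 (by norm_num) m h))) (eqC_Tl 3 (by norm_num) m h)) (eqC_Tl 11 (by norm_num) m h))
  (eqC_zsmul 3 (eqC_Tl 17 (by norm_num) m h))) (eqC_zsmul 2 (eqC_Tl 23 (by norm_num) m h)))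
  (eqC_Tl 2 (by norm_num) m (eqC_add (eqC_zsmul 3 (eqC_Tl 3 (by norm_num) m h)) (eqC_zsmul 3
  (eqC_Tl 13 (by norm_num) m h))))) (eqC_zsmul 3 (eqC_Tl 3 (by norm_num) m (eqC_Tl 3 (by
  norm_num) m h))))

private theorem eqC_Ao {G H : ℤ → ℤ → ZMod 5} (m : ℤ) (h : EqC G H) : EqC (AoQ m G) (AoQ m H) :=
  (eqC_add (eqC_add (eqC_add (eqC_add (eqC_add (eqC_add (eqC_add (eqC_add (eqC_zsmul 3 (eqC_Tl
  2 (by norm_num) m h)) (eqC_zsmul 2 (eqC_Tl 3 (by norm_num) m h))) (eqC_Tl 13 (by norm_num) m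
  h)) (eqC_zsmul 4 (eqC_Tl 17 (by norm_num) m h))) (eqC_zsmul 2 (eqC_Tl 19 (by norm_num) m h)))
  (eqC_zsmul 3 (eqC_Tl 23 (by norm_num) m h))) (eqC_zsmul 2 (eqC_Tl 31 (by norm_num) m h)))
  (eqC_zsmul 3 (eqC_Tl 37 (by norm_num) m h))) (eqC_Tl 3 (by norm_num) m (eqC_Tl 3 (by
  norm_num) m h)))

private theorem eqC_Bo {G H : ℤ → ℤ → ZMod 5} (m : ℤ) (h : EqC G H) : EqC (BoQ m G) (BoQ m H) :=
  (eqC_add (eqC_add (eqC_add (eqC_add (eqC_add (eqC_add (eqC_zsmul 4 (eqC_Tl 3 (by norm_num) m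
  h)) (eqC_zsmul 2 (eqC_Tl 11 (by norm_num) m h))) (eqC_zsmul 4 (eqC_Tl 13 (by norm_num) m h)))
  (eqC_zsmul 4 (eqC_Tl 17 (by norm_num) m h))) (eqC_zsmul 3 (eqC_Tl 19 (by norm_num) m h)))
  (eqC_zsmul 4 (eqC_Tl 23 (by norm_num) m h))) (eqC_zsmul 3 (eqC_Tl 3 (by norm_num) m (eqC_Tl 3
  (by norm_num) m h))))

private theorem eqC_Vo {G H : ℤ → ℤ → ZMod 5} (m : ℤ) (h : EqC G H) : EqC (VoQ m G) (VoQ m H) :=
  (eqC_add (eqC_add (eqC_add (eqC_add (eqC_add (eqC_add (eqC_add (eqC_add (eqC_add (eqC_zsmul 3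
  h) (eqC_zsmul 2 (eqC_Tl 11 (by norm_num) m h))) (eqC_zsmul 3 (eqC_Tl 19 (by norm_num) m h)))
  (eqC_zsmul 3 (eqC_Tl 23 (by norm_num) m h))) (eqC_Tl 31 (by norm_num) m h)) (eqC_Tl 37 (by
  norm_num) m h)) (eqC_zsmul 2 (eqC_Tl 41 (by norm_num) m h))) (eqC_zsmul 3 (eqC_Tl 43 (by
  norm_num) m h))) (eqC_Tl 2 (by norm_num) m (eqC_Ao m h))) (eqC_Tl 3 (by norm_num) m (eqC_Bo m
  h)))

private theorem eqC_Oo {G H : ℤ → ℤ → ZMod 5} (c : ℕ) (m : ℤ) (h : EqC G H) :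
    EqC (OoQ c m G) (OoQ c m H) := by
  unfold OoQ
  split_ifs
  · exact
      h
  · exact
      (eqC_add (eqC_add h (eqC_Tl 2 (by norm_num) m h)) (eqC_zsmul 4 (eqC_Tl 3 (by norm_num) m
      h)))
  · exact
      (eqC_add (eqC_zsmul 3 h) (eqC_zsmul 4 (eqC_Tl 2 (by norm_num) m h)))
  · exact
      (eqC_add (eqC_zsmul 2 (eqC_Tl 3 (by norm_num) m h)) (eqC_zsmul 3 (eqC_Tl 2 (by norm_num)
      m (eqC_Tl 2 (by norm_num) m h))))
  · exact
      (eqC_add (eqC_add (eqC_add (eqC_zsmul 3 h) (eqC_zsmul 3 (eqC_Tl 2 (by norm_num) m h)))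
      (eqC_zsmul 4 (eqC_Tl 3 (by norm_num) m h))) (eqC_Tl 11 (by norm_num) m h))
  · exact
      (eqC_add (eqC_add (eqC_add (eqC_add (eqC_add (eqC_add h (eqC_zsmul 3 (eqC_Tl 2 (by
      norm_num) m h))) (eqC_zsmul 3 (eqC_Tl 3 (by norm_num) m h))) (eqC_Tl 11 (by norm_num) m
      h)) (eqC_Tl 13 (by norm_num) m h)) (eqC_zsmul 2 (eqC_Tl 31 (by norm_num) m h)))
      (eqC_zsmul 2 (eqC_Tl 2 (by norm_num) m (eqC_Tl 2 (by norm_num) m h))))
  · exact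
      (eqC_add (eqC_add (eqC_add (eqC_add (eqC_add (eqC_add (eqC_add (eqC_add (eqC_add (eqC_add
      (eqC_zsmul 3 h) (eqC_zsmul 2 (eqC_Tl 2 (by norm_num) m h))) (eqC_Tl 3 (by norm_num) m h))
      (eqC_Tl 11 (by norm_num) m h)) (eqC_zsmul 4 (eqC_Tl 13 (by norm_num) m h))) (eqC_zsmul 3
      (eqC_Tl 23 (by norm_num) m h))) (eqC_Tl 31 (by norm_num) m h)) (eqC_zsmul 4 (eqC_Tl 37
      (by norm_num) m h))) (eqC_zsmul 2 (eqC_Tl 2 (by norm_num) m (eqC_Tl 2 (by norm_num) m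
      h)))) (eqC_zsmul 4 (eqC_Tl 2 (by norm_num) m (eqC_Tl 3 (by norm_num) m h)))) (eqC_zsmul 2
      (eqC_Tl 3 (by norm_num) m (eqC_Tl 3 (by norm_num) m h))))
  · exact
      (eqC_add (eqC_add (eqC_add (eqC_add (eqC_add (eqC_add (eqC_add (eqC_add (eqC_add (eqC_Tl
      2 (by norm_num) m h) (eqC_zsmul 2 (eqC_Tl 3 (by norm_num) m h))) (eqC_zsmul 3 (eqC_Tl 11
      (by norm_num) m h))) (eqC_Tl 13 (by norm_num) m h)) (eqC_zsmul 2 (eqC_Tl 17 (by norm_num)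
      m h))) (eqC_zsmul 2 (eqC_Tl 19 (by norm_num) m h))) (eqC_Tl 23 (by norm_num) m h))
      (eqC_zsmul 3 (eqC_Tl 31 (by norm_num) m h))) (eqC_zsmul 3 (eqC_Tl 2 (by norm_num) m
      (eqC_Tl 3 (by norm_num) m h)))) (eqC_zsmul 2 (eqC_Tl 3 (by norm_num) m (eqC_Tl 3 (by
      norm_num) m h))))

private theorem eqC_iter (U : (ℤ → ℤ → ZMod 5) → (ℤ → ℤ → ZMod 5))
    (hU : ∀ G H, EqC G H → EqC (U G) (U H)) (i : ℕ) {G H : ℤ → ℤ → ZMod 5} (h : EqC G H) :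
    EqC (U^[i] G) (U^[i] H) := by
  induction i generalizing G H with
  | zero => exact h
  | succ i ih =>
    rw [Function.iterate_succ_apply, Function.iterate_succ_apply]
    exact ih (hU G H h)

private theorem evQ_congr (m : ℤ) {G H : ℤ → ℤ → ZMod 5} (h : EqC G H) (c i j : ℕ) :
    evQ m G c i j = evQ m H c i j := by
  obtain ⟨e, he⟩ := eqC_Oo c m
    (eqC_iter (UoQ m) (fun _ _ => eqC_Uo m) i (eqC_iter (VoQ m) (fun _ _ => eqC_Vo m) j h))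
  unfold evQ
  rw [he 1 0 (Or.inl one_ne_zero), he 0 1 (Or.inr one_ne_zero)]
  ring

/-- MODULE Lif. -/
theorem hLif (hr : TRel) (hp : TLifp) (hx : TEx) (hu : TUni) : TLif := by
  intro r s g hg
  have h1 := hr (ZMod 5) _ r s g hg
  obtain ⟨F, hF, hF1⟩ := hp r s _ h1
  obtain ⟨G, hG, hG1⟩ := hx ℤ _ r s F hF
  refine ⟨G, hG, ?_⟩
  have h2 : SymH 5 r (s + 1) (red G + -g) := SymH.add (red_Sym hG) (SymH.neg hg)
  have h3 : EqC (red G + -g) 0 := by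
    refine hu (ZMod 5) _ r s _ h2 fun i => ?_
    funext x y
    rw [sub_pf, red_pf, hG1, hF1, sub_self]
    rfl
  have h4 : EqC (red G) g := by
    obtain ⟨c, hc⟩ := h3
    refine ⟨c, fun p q hpq => ?_⟩
    have h5 := hc p q hpq
    simp only [Pi.add_apply, Pi.neg_apply, Pi.zero_apply, zero_add] at h5
    rw [← h5]
    abel
  intro c i j
  rw [← red_ev]
  exact evQ_congr _ h4 c i j

end Pool.Agent.Helper9.T7
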